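import Pool.Agent.Q295.LB.Stm

set_option autoImplicit false

/-! Chi-square bound for mixtures of product laws (project LB of helper295, MP_d24e49_pr). -/

namespace Pool.Agent.Q209.LB

open Pool.Agent.Q295.LB

/-- the state after the driving sequence `ω` -/
def run {S α : Type} (F : S → α → S) : ∀ m : ℕ, S → (Fin m → α) → S
  | 0, x, _ => x
  | m + 1, x, ω => run F m (F x (ω 0)) (Fin.tail ω)

theorem Ex_eq {S α : Type} [Fintype α] (w : α → ℝ) (F : S → α → S) (f : S → ℝ) (m : ℕ) (x : S) :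
    Ex w F m f x = ∑ ω : Fin m → α, (∏ i, w (ω i)) * f (run F m x ω) := by
  induction m generalizing x with
  | zero => simp [Ex, run]
  | succ m ih =>
    rw [Ex, ← (Fin.consEquiv (fun _ : Fin (m + 1) => α)).sum_comp, Fintype.sum_prod_type]
    refine Finset.sum_congr rfl fun a _ => ?_
    rw [ih, Finset.mul_sum]
    refine Finset.sum_congr rfl fun ω _ => ?_
    rw [Fin.prod_univ_succ, ← mul_assoc]
    rfl

theorem chi : S_CHI := by
  intro S α _ _ N F w κ hN hκ hw hw1 hd ho f hf0 hf1 m x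
  classical
  set K : ℝ := (Fintype.card α : ℝ) with hK
  have hKpos : 0 < K := by
    rw [hK]
    exact_mod_cast Fintype.card_pos
  have hNpos : (0 : ℝ) < N := by exact_mod_cast hN
  set W : (Fin m → α) → ℝ := fun ω => (1 / (N : ℝ)) * ∑ b, ∏ i, w b (ω i) with hW
  have e1 : (1 / (N : ℝ)) * ∑ b, Ex (w b) F m f x = ∑ ω, W ω * f (run F m x ω) := by
    simp only [Ex_eq, hW]
    rw [Finset.sum_comm, Finset.mul_sum]
    refine Finset.sum_congr rfl fun ω _ => ?_
    rw [mul_assoc, Finset.sum_mul]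
  have e2 : Ex (fun _ => 1 / K) F m f x = ∑ ω, (1 / K) ^ m * f (run F m x ω) := by
    rw [Ex_eq]
    refine Finset.sum_congr rfl fun ω _ => ?_
    rw [Finset.prod_const, Finset.card_univ, Fintype.card_fin]
  have hsumW : ∑ ω, W ω = 1 := by
    simp only [hW]
    rw [← Finset.mul_sum, Finset.sum_comm]
    have : ∀ b : Fin N, ∑ ω : Fin m → α, ∏ i, w b (ω i) = 1 := by
      intro b
      rw [← Fintype.sum_pow, hw1, one_pow]
    rw [Finset.sum_congr rfl fun b _ => this b]
    simp only [Finset.sum_const, Finset.card_univ, Fintype.card_fin, nsmul_eq_mul, mul_one]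
    field_simp
  have hcard : (Finset.univ : Finset (Fin m → α)).card = Fintype.card α ^ m := by
    rw [Finset.card_univ, Fintype.card_fun, Fintype.card_fin]
  have hW2 : K ^ m * ∑ ω, W ω ^ 2 ≤ (1 + κ) ^ m / N + 1 := by
    have h1 : K ^ m * ∑ ω, W ω ^ 2 =
        (1 / (N : ℝ)) ^ 2 * ∑ b, ∑ b', (K * ∑ a, w b a * w b' a) ^ m := by
      have h2 : ∀ ω, W ω ^ 2 = (1 / (N : ℝ)) ^ 2 * ∑ b, ∑ b', ∏ i, (w b (ω i) * w b' (ω i)) := by
        intro ω
        simp only [hW]
        rw [mul_pow, sq (∑ b, ∏ i, w b (ω i)), Finset.sum_mul_sum]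
        congr 1
        refine Finset.sum_congr rfl fun b _ => Finset.sum_congr rfl fun b' _ => ?_
        rw [Finset.prod_mul_distrib]
      simp only [h2]
      rw [← Finset.mul_sum, Finset.sum_comm]
      rw [mul_left_comm]
      congr 1
      rw [Finset.mul_sum]
      refine Finset.sum_congr rfl fun b _ => ?_
      rw [Finset.sum_comm, Finset.mul_sum]
      refine Finset.sum_congr rfl fun b' _ => ?_
      rw [mul_pow, Fintype.sum_pow]
    have h3 : ∀ b b' : Fin N, 0 ≤ K * ∑ a, w b a * w b' a := fun b b' =>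
      mul_nonneg hKpos.le (Finset.sum_nonneg fun a _ => mul_nonneg (hw b a) (hw b' a))
    have h4 : ∀ b b' : Fin N, (K * ∑ a, w b a * w b' a) ^ m ≤
        (if b' = b then (1 + κ) ^ m else 0) + 1 := by
      intro b b'
      by_cases hbb : b' = b
      · rw [if_pos hbb, hbb]
        have := pow_le_pow_left₀ (h3 b b) (hd b) m
        linarith
      · rw [if_neg hbb, zero_add]
        exact pow_le_one₀ (h3 b b') (ho b b' (Ne.symm hbb))
    rw [h1]
    calc (1 / (N : ℝ)) ^ 2 * ∑ b, ∑ b', (K * ∑ a, w b a * w b' a) ^ m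
        ≤ (1 / (N : ℝ)) ^ 2 * ∑ b : Fin N, ∑ b' : Fin N,
            ((if b' = b then (1 + κ) ^ m else 0) + 1) := by
          refine mul_le_mul_of_nonneg_left ?_ (by positivity)
          exact Finset.sum_le_sum fun b _ => Finset.sum_le_sum fun b' _ => h4 b b'
      _ = (1 + κ) ^ m / N + 1 := by
          simp only [Finset.sum_add_distrib, Finset.sum_ite_eq', Finset.mem_univ, if_true,
            Finset.sum_const, Finset.card_univ, Fintype.card_fin, nsmul_eq_mul, mul_one]
          field_simp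
  have hd2 : K ^ m * ∑ ω, (W ω - (1 / K) ^ m) ^ 2 ≤ (1 + κ) ^ m / N := by
    have h1 : ∑ ω, (W ω - (1 / K) ^ m) ^ 2 = ∑ ω, W ω ^ 2 - (1 / K) ^ m := by
      have h2 : ∀ ω, (W ω - (1 / K) ^ m) ^ 2 =
          W ω ^ 2 - 2 * (1 / K) ^ m * W ω + ((1 / K) ^ m) ^ 2 := fun ω => by ring
      simp only [h2]
      rw [Finset.sum_add_distrib, Finset.sum_sub_distrib, ← Finset.mul_sum, hsumW,
        Finset.sum_const, hcard, nsmul_eq_mul]
      push_cast
      rw [← hK]
      have h3 : K ^ m * (1 / K) ^ m = 1 := by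
        rw [← mul_pow, mul_one_div_cancel hKpos.ne', one_pow]
      have h4 : K ^ m * ((1 / K) ^ m) ^ 2 = (1 / K) ^ m := by
        rw [sq, ← mul_assoc, h3, one_mul]
      rw [h4]
      ring
    rw [h1, mul_sub]
    have h3 : K ^ m * (1 / K) ^ m = 1 := by
      rw [← mul_pow, mul_one_div_cancel hKpos.ne', one_pow]
    rw [h3]
    linarith
  have hfin : ∑ ω, (W ω - (1 / K) ^ m) * f (run F m x ω) ≤ √((1 + κ) ^ m / N) := by
    have h1 : ∑ ω, (W ω - (1 / K) ^ m) * f (run F m x ω) ≤ ∑ ω, |W ω - (1 / K) ^ m| := by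
      refine Finset.sum_le_sum fun ω _ => ?_
      have h2 := hf0 (run F m x ω)
      have h3 := hf1 (run F m x ω)
      calc (W ω - (1 / K) ^ m) * f (run F m x ω)
          ≤ |W ω - (1 / K) ^ m| * f (run F m x ω) :=
            mul_le_mul_of_nonneg_right (le_abs_self _) h2
        _ ≤ |W ω - (1 / K) ^ m| * 1 := mul_le_mul_of_nonneg_left h3 (abs_nonneg _)
        _ = _ := mul_one _
    refine h1.trans (Real.le_sqrt_of_sq_le ?_)
    have h2 := Finset.sum_mul_sq_le_sq_mul_sq (Finset.univ : Finset (Fin m → α))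
      (fun _ => (1 : ℝ)) (fun ω => |W ω - (1 / K) ^ m|)
    simp only [one_mul, one_pow, sq_abs, Finset.sum_const, hcard, nsmul_eq_mul, mul_one] at h2
    push_cast at h2
    rw [← hK] at h2
    exact h2.trans hd2
  rw [e1, e2]
  have h1 : ∑ ω, W ω * f (run F m x ω) = ∑ ω, (1 / K) ^ m * f (run F m x ω) +
      ∑ ω, (W ω - (1 / K) ^ m) * f (run F m x ω) := by
    rw [← Finset.sum_add_distrib]
    refine Finset.sum_congr rfl fun ω _ => ?_
    ring
  rw [h1]
  linarith

end Pool.Agent.Q209.LB
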