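import Pool.Agent.Q295.LB.Stm

set_option autoImplicit false

/-! One step of the local energy (project LB of helper295, MP_d24e49_pr). -/

namespace Pool.Agent.Q209.LB

open Pool.Agent.Q295.LB

theorem ratio {n : ℕ} (ψ : ZMod n → ℝ) (ε : ℝ)
    (h : ∀ v, ψ (v + 1) ≤ Real.exp ε * ψ v ∧ ψ v ≤ Real.exp ε * ψ (v + 1)) (k : ℕ) (u : ZMod n) :
    ψ (u + k) ≤ Real.exp (ε * k) * ψ u ∧ ψ u ≤ Real.exp (ε * k) * ψ (u + k) := by
  induction k with
  | zero => simp
  | succ k ih =>
    have h1 := h (u + k)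
    have e1 : (u + ((k + 1 : ℕ) : ZMod n)) = u + k + 1 := by push_cast; ring
    have e2 : Real.exp (ε * ((k + 1 : ℕ) : ℝ)) = Real.exp ε * Real.exp (ε * k) := by
      rw [← Real.exp_add]
      congr 1
      push_cast
      ring
    rw [e1, e2]
    have hp1 := Real.exp_pos ε
    have hp2 := Real.exp_pos (ε * k)
    constructor
    · calc ψ (u + k + 1) ≤ Real.exp ε * ψ (u + k) := h1.1
        _ ≤ Real.exp ε * (Real.exp (ε * k) * ψ u) := mul_le_mul_of_nonneg_left ih.1 hp1.le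
        _ = _ := by ring
    · calc ψ u ≤ Real.exp (ε * k) * ψ (u + k) := ih.2
        _ ≤ Real.exp (ε * k) * (Real.exp ε * ψ (u + k + 1)) :=
          mul_le_mul_of_nonneg_left h1.2 hp2.le
        _ = _ := by ring

theorem ratio_sl (hSLI : S_SLI) {n : ℕ} [NeZero n] (x : ZMod n → ℕ) (hx : Lip x)
    (ψ : ZMod n → ℝ) (ε : ℝ)
    (h : ∀ v, ψ (v + 1) ≤ Real.exp ε * ψ v ∧ ψ v ≤ Real.exp ε * ψ (v + 1)) (u : ZMod n)
    (c : Bool) :
    ψ (sl x u c) ≤ Real.exp (ε * ((x u : ℝ) - x (sl x u c))) * ψ u ∧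
      ψ u ≤ Real.exp (ε * ((x u : ℝ) - x (sl x u c))) * ψ (sl x u c) := by
  obtain ⟨h1, h2, _⟩ := hSLI n x hx u c
  have hD : (((x u - x (sl x u c) : ℕ) : ℕ) : ℝ) = (x u : ℝ) - x (sl x u c) := by
    rw [Nat.cast_sub h1]
  rcases h2 with h2 | h2
  · have := ratio ψ ε h (x u - x (sl x u c)) u
    rw [← h2, hD] at this
    exact this
  · have := ratio ψ ε h (x u - x (sl x u c)) (sl x u c)
    have e : sl x u c + ((x u - x (sl x u c) : ℕ) : ZMod n) = u := by
      rw [eq_sub_iff_add_eq] at h2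
      exact h2
    rw [e, hD] at this
    exact ⟨this.2, this.1⟩

theorem En_stp {n : ℕ} [NeZero n] (x : ZMod n → ℕ) (ψ : ZMod n → ℝ) (s : ℝ)
    (a : ZMod n × Bool) :
    En ψ s (stp x a) = En ψ s x + ψ (sl x a.1 a.2) * (2 * ((x (sl x a.1 a.2) : ℝ) - s) + 1) := by
  set v := sl x a.1 a.2 with hv
  unfold En stp inc
  rw [← hv, ← sub_eq_iff_eq_add', ← Finset.sum_sub_distrib, Finset.sum_eq_single v]
  · rw [Function.update_self]
    push_cast
    ring
  · intro w _ hw
    rw [Function.update_of_ne hw]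
    ring
  · intro h
    exact absurd (Finset.mem_univ _) h

theorem est (hSLI : S_SLI) : S_EST := by
  intro n _ x hx p θ hθ hθ1 hp1 hp0 hpd ψ ε M s hε hM hψ hr h4 h2 hy
  have hn : (0 : ℝ) < n := by
    have := NeZero.pos n
    exact_mod_cast this
  have hn1 : (1 : ℝ) ≤ n := by
    have := NeZero.pos n
    exact_mod_cast this
  set y : ZMod n → ℝ := fun v => (x v : ℝ) - s with hydef
  -- one step
  have hstep : ∀ a : ZMod n × Bool, En ψ (s + 1 / n) (stp x a) +
      ψ a.1 * ((x a.1 : ℝ) - x (sl x a.1 a.2)) ≤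
      (En ψ s x - 2 / n * ∑ v, ψ v * y v + 1 / n * ∑ v, ψ v) +
        (2 * (ψ a.1 * y a.1) + 3 * ψ a.1) := by
    intro a
    obtain ⟨u, c⟩ := a
    have hE : En ψ (s + 1 / n) x = En ψ s x - 2 / n * ∑ v, ψ v * y v +
        (1 / n) ^ 2 * ∑ v, ψ v := by
      unfold En
      rw [Finset.mul_sum, Finset.mul_sum, ← Finset.sum_sub_distrib, ← Finset.sum_add_distrib]
      refine Finset.sum_congr rfl fun v _ => ?_
      simp only [hydef]
      ring
    rw [En_stp, hE]
    change _ + ψ (sl x u c) * (2 * ((x (sl x u c) : ℝ) - (s + 1 / n)) + 1) +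
      ψ u * ((x u : ℝ) - x (sl x u c)) ≤ _ + (2 * (ψ u * y u) + 3 * ψ u)
    obtain ⟨r1, r2⟩ := ratio_sl hSLI x hx ψ ε hr u c
    have hle := (hSLI n x hx u c).1
    set v := sl x u c with hv
    set D : ℝ := (x u : ℝ) - x v with hD
    have hD0 : 0 ≤ D := by
      rw [hD, sub_nonneg]
      exact_mod_cast hle
    have hDM : D ≤ 2 * M := by
      have h5 := (abs_le.1 (hy u)).2
      have h6 := (abs_le.1 (hy v)).1
      rw [hD]
      linarith
    have hεD : ε * D ≤ 1 / 2 := by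
      have : ε * D ≤ ε * (2 * M) := mul_le_mul_of_nonneg_left hDM hε
      linarith
    have hεD0 : 0 ≤ ε * D := mul_nonneg hε hD0
    have hexp : Real.exp (ε * D) ≤ 1 + 2 * (ε * D) := by
      have h5 := Real.abs_exp_sub_one_le (x := ε * D) (by rw [abs_of_nonneg hεD0]; linarith)
      rw [abs_of_nonneg hεD0] at h5
      linarith [(abs_le.1 h5).2]
    have hexp' : 1 - ε * D ≤ Real.exp (-(ε * D)) := by
      linarith [Real.add_one_le_exp (-(ε * D))]
    have hup : ψ v - ψ u ≤ 2 * (ε * D) * ψ u := by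
      have h5 : ψ v ≤ (1 + 2 * (ε * D)) * ψ u :=
        r1.trans (mul_le_mul_of_nonneg_right hexp (hψ u))
      linarith
    have hlo : ψ u - ψ v ≤ 2 * (ε * D) * ψ u := by
      have h5 : Real.exp (-(ε * D)) * ψ u ≤ ψ v := by
        rw [Real.exp_neg, inv_mul_le_iff₀ (Real.exp_pos _)]
        exact r2
      have h6 : (1 - ε * D) * ψ u ≤ ψ v :=
        (mul_le_mul_of_nonneg_right hexp' (hψ u)).trans h5
      have h7 : 0 ≤ ε * D * ψ u := mul_nonneg hεD0 (hψ u)
      linarith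
    have hv3 : ψ v ≤ 2 * ψ u := by
      have : 2 * (ε * D) * ψ u ≤ 1 * ψ u := mul_le_mul_of_nonneg_right (by linarith) (hψ u)
      linarith
    have habs : |ψ v - ψ u| ≤ 2 * (ε * D) * ψ u := abs_le.2 ⟨by linarith, hup⟩
    have hyv : |y v| ≤ M := hy v
    have hprod : (ψ v - ψ u) * y v ≤ 2 * (ε * D) * ψ u * M := by
      calc (ψ v - ψ u) * y v ≤ |(ψ v - ψ u) * y v| := le_abs_self _
        _ = |ψ v - ψ u| * |y v| := abs_mul _ _
        _ ≤ 2 * (ε * D) * ψ u * M := mul_le_mul habs hyv (abs_nonneg _)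
            (mul_nonneg (by linarith) (hψ u))
    have hprod2 : 2 * ((ψ v - ψ u) * y v) ≤ ψ u * D := by
      have h5 : 2 * (2 * (ε * D) * ψ u * M) = (4 * ε * M) * (ψ u * D) := by ring
      have h6 : (4 * ε * M) * (ψ u * D) ≤ 1 * (ψ u * D) :=
        mul_le_mul_of_nonneg_right h4 (mul_nonneg (hψ u) hD0)
      linarith
    have hyuv : y v = y u - D := by
      simp only [hydef, hD]
      ring
    have hmain : ψ v * (2 * ((x v : ℝ) - (s + 1 / n)) + 1) + ψ u * D ≤
        2 * (ψ u * y u) + 3 * ψ u := by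
      have e1 : ψ v * (2 * ((x v : ℝ) - (s + 1 / n)) + 1) =
          2 * (ψ u * y v) + 2 * ((ψ v - ψ u) * y v) + ψ v - 2 * (1 / n) * ψ v := by
        simp only [hydef]
        ring
      have e2 : ψ u * y v = ψ u * y u - ψ u * D := by rw [hyuv]; ring
      have e3 : 0 ≤ 2 * (1 / (n : ℝ)) * ψ v := mul_nonneg (by positivity) (hψ v)
      have e4 := hψ u
      rw [e1, e2]
      linarith
    have hS : 0 ≤ ∑ v, ψ v := Finset.sum_nonneg fun v _ => hψ v
    have hsq : (1 / (n : ℝ)) ^ 2 * ∑ v, ψ v ≤ 1 / n * ∑ v, ψ v := by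
      refine mul_le_mul_of_nonneg_right ?_ hS
      have h5 : 1 / (n : ℝ) ≤ 1 := by
        rw [div_le_one hn]
        exact hn1
      have h6 : 0 ≤ 1 / (n : ℝ) := by positivity
      nlinarith
    linarith
  have hwt0 : ∀ a : ZMod n × Bool, 0 ≤ wt p a := fun a => by
    have := hp0 a.1
    simp only [wt]
    linarith
  have hwsum : ∀ g : ZMod n → ℝ, ∑ a : ZMod n × Bool, wt p a * g a.1 = ∑ u, p u * g u := by
    intro g
    rw [Fintype.sum_prod_type]
    refine Finset.sum_congr rfl fun u _ => ?_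
    simp only [wt, Fintype.sum_bool]
    ring
  set E0 : ℝ := En ψ s x - 2 / n * ∑ v, ψ v * y v + 1 / n * ∑ v, ψ v with hE0
  calc ∑ a, wt p a * (En ψ (s + 1 / n) (stp x a) + ψ a.1 * ((x a.1 : ℝ) - x (sl x a.1 a.2)))
      ≤ ∑ a : ZMod n × Bool, wt p a * (E0 + (2 * (ψ a.1 * y a.1) + 3 * ψ a.1)) :=
        Finset.sum_le_sum fun a _ => mul_le_mul_of_nonneg_left (hstep a) (hwt0 a)
    _ = ∑ u, p u * (E0 + (2 * (ψ u * y u) + 3 * ψ u)) :=
        hwsum fun u => E0 + (2 * (ψ u * y u) + 3 * ψ u)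
    _ = E0 + ∑ u, p u * (2 * (ψ u * y u) + 3 * ψ u) := by
        have : ∀ u, p u * (E0 + (2 * (ψ u * y u) + 3 * ψ u)) =
            p u * E0 + p u * (2 * (ψ u * y u) + 3 * ψ u) := fun u => by ring
        rw [Finset.sum_congr rfl fun u _ => this u, Finset.sum_add_distrib, ← Finset.sum_mul, hp1,
          one_mul]
    _ ≤ E0 + ∑ u, (2 / n * (ψ u * y u) + 7 / n * ψ u) := by
        have : ∀ u, p u * (2 * (ψ u * y u) + 3 * ψ u) ≤ 2 / n * (ψ u * y u) + 7 / n * ψ u := by
          intro u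
          obtain ⟨k1, k2⟩ := abs_le.1 (hpd u)
          have k3 : |y u| ≤ M := hy u
          have k4 : (p u - 1 / n) * (ψ u * y u) ≤ θ / n * (ψ u * M) := by
            calc (p u - 1 / n) * (ψ u * y u) ≤ |(p u - 1 / n) * (ψ u * y u)| := le_abs_self _
              _ = |p u - 1 / n| * (ψ u * |y u|) := by
                  rw [abs_mul, abs_mul, abs_of_nonneg (hψ u)]
              _ ≤ θ / n * (ψ u * M) := by
                  refine mul_le_mul (hpd u) (mul_le_mul_of_nonneg_left k3 (hψ u))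
                    (mul_nonneg (hψ u) (abs_nonneg _)) (by positivity)
          have k5 : 2 * (θ / n * (ψ u * M)) ≤ 1 / n * ψ u := by
            have : 2 * (θ / n * (ψ u * M)) = (2 * θ * M) * (1 / n * ψ u) := by ring
            rw [this]
            have h6 : 0 ≤ 1 / (n : ℝ) * ψ u := mul_nonneg (by positivity) (hψ u)
            nlinarith
          have k6 : p u * ψ u ≤ 2 / n * ψ u := by
            refine mul_le_mul_of_nonneg_right ?_ (hψ u)
            have : θ / n ≤ 1 / n := by gcongr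
            have e : (2 : ℝ) / n = 1 / n + 1 / n := by ring
            rw [e]
            linarith
          have k7 : p u * (2 * (ψ u * y u) + 3 * ψ u) = 2 / n * (ψ u * y u) +
              2 * ((p u - 1 / n) * (ψ u * y u)) + 3 * (p u * ψ u) := by ring
          have k8 : (7 : ℝ) / n * ψ u = 1 / n * ψ u + 3 * (2 / n * ψ u) := by ring
          rw [k7, k8]
          linarith
        have := Finset.sum_le_sum fun u (_ : u ∈ Finset.univ) => this u
        linarith
    _ = En ψ s x + 8 / n * ∑ v, ψ v := by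
        rw [Finset.sum_add_distrib, ← Finset.mul_sum, ← Finset.mul_sum, hE0]
        ring

end Pool.Agent.Q209.LB
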