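import Pool.Agent.Q295.LB.Stm

set_option autoImplicit false

/-! Choice of the parameters (project LB of helper295, MP_d24e49_pr). -/

namespace Pool.Agent.Q209.LB

open Pool.Agent.Q295.LB

/-- the parameters for a small `η` -/
theorem par_aux (η : ℝ) (hη : 0 < η) (hη2 : η ≤ 1 / 2) (c₁ K : ℝ) (hc₁ : c₁ = η / 16384)
    (hK : K = 2048 / (η * c₁)) (n m : ℕ)
    (hR : 1 + 200 * K + 192 / c₁ + 32 / η ≤ Real.log n)
    (hm1 : (n : ℝ) * Real.log n ^ 3 ≤ m) (hm2 : (m : ℝ) ≤ n * √n) :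
    ∃ (L N : ℕ) (θ M lam : ℝ), 3 ≤ n ∧ 0 < m ∧ 1 ≤ L ∧ 0 < N ∧ N * L ≤ n ∧ 48 * L ≤ n ∧ 0 < θ ∧
    θ ≤ 1 ∧
    0 ≤ M ∧ 4 * (1 / (L : ℝ)) * M ≤ 1 ∧ 2 * θ * M ≤ 1 ∧ 0 ≤ lam ∧ lam ≤ 1 ∧
    c₁ / 32 * Real.log n = θ * (m / n) / 32 ∧
    (2 * n * Real.exp ((lam ^ 2 + 2 * lam * θ) * (m / n) - lam * M) +
      512 * (m / n) / (L * (θ * (m / n))) +
      49152 * (m / n) / ((θ * (m / n)) ^ 2 * L)) +
      √((1 + θ ^ 2 * L / n) ^ m / N) ≤ η := by
  have hc0 : 0 < c₁ := by rw [hc₁]; positivity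
  have hc1 : c₁ ≤ 1 / 16384 := by rw [hc₁]; linarith
  have hK0 : 0 < K := by rw [hK]; positivity
  have hKc : K * c₁ = 2048 / η := by
    rw [hK]
    field_simp
  have hK24 : 24 ≤ K := by
    have h1 : 2048 / η ≤ K * 1 := by
      rw [← hKc]
      exact mul_le_mul_of_nonneg_left (by linarith) hK0.le
    have h2 : 24 ≤ 2048 / η := by
      rw [le_div_iff₀ hη]
      linarith
    linarith
  set ℓ : ℝ := Real.log n with hℓ
  have hi1 : 0 < 192 / c₁ := by positivity
  have hi2 : 0 < 32 / η := by positivity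
  have hℓ1 : 1 ≤ ℓ := by linarith
  have hℓK : 200 * K ≤ ℓ := by linarith
  have hℓc : 192 / c₁ ≤ ℓ := by linarith
  have hℓη : 32 / η ≤ ℓ := by linarith
  have hℓ0 : 0 < ℓ := by linarith
  have hn3 : 3 ≤ n := by
    by_contra hcon
    push Not at hcon
    have h1 : (n : ℝ) ≤ 2 := by
      have : n ≤ 2 := by omega
      exact_mod_cast this
    have h2 : ℓ ≤ Real.log 2 := by
      rcases Nat.eq_zero_or_pos n with h0 | h0
      · rw [hℓ, h0]
        simp only [Nat.cast_zero, Real.log_zero]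
        positivity
      · exact Real.log_le_log (by exact_mod_cast h0) h1
    have h3 := Real.log_two_lt_d9
    linarith
  have hn0 : (0 : ℝ) < n := by
    have : 0 < n := by omega
    exact_mod_cast this
  have hexp : Real.exp ℓ = n := Real.exp_log hn0
  have hnℓ : ℓ + 1 ≤ n := by
    rw [← hexp]
    exact Real.add_one_le_exp ℓ
  set t : ℝ := (m : ℝ) / n with ht
  have htℓ : ℓ ^ 3 ≤ t := by
    rw [ht, le_div_iff₀ hn0]
    linarith
  have htn : t ≤ √n := by
    rw [ht, div_le_iff₀ hn0]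
    linarith
  have hℓ3 : ℓ ≤ ℓ ^ 3 := by
    calc ℓ = ℓ ^ 1 := (pow_one _).symm
      _ ≤ ℓ ^ 3 := pow_le_pow_right₀ hℓ1 (by norm_num)
  have htℓ' : ℓ ≤ t := hℓ3.trans htℓ
  have ht0 : 0 < t := by linarith
  have hm0 : 0 < m := by
    rcases Nat.eq_zero_or_pos m with h0 | h0
    · exfalso
      rw [ht, h0] at ht0
      simp at ht0
    · exact h0
  set θ : ℝ := c₁ * ℓ / t with hθ
  have hθ0 : 0 < θ := by rw [hθ]; positivity
  have hθt : θ * t = c₁ * ℓ := by
    rw [hθ]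
    field_simp
  have hθ1 : θ ≤ c₁ := by
    rw [hθ, div_le_iff₀ ht0]
    exact mul_le_mul_of_nonneg_left htℓ' hc0.le
  set L : ℕ := ⌈K * t / ℓ⌉₊ with hL
  have hKt0 : 0 < K * t / ℓ := by positivity
  have hKt1 : 1 ≤ K * t / ℓ := by
    rw [le_div_iff₀ hℓ0]
    have := mul_le_mul_of_nonneg_right hK24 ht0.le
    linarith
  have hLge : K * t / ℓ ≤ L := Nat.le_ceil _
  have hLle : (L : ℝ) ≤ 2 * (K * t / ℓ) := by
    have := (Nat.ceil_lt_add_one hKt0.le).le
    rw [← hL] at this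
    linarith
  have hL1 : 1 ≤ L := by
    have : (1 : ℝ) ≤ L := hKt1.trans hLge
    exact_mod_cast this
  have hL0 : (0 : ℝ) < L := by exact_mod_cast hL1
  have hLt : (L : ℝ) ≤ t / 100 := by
    refine hLle.trans ?_
    rw [mul_div_assoc', div_le_div_iff₀ hℓ0 (by norm_num)]
    have := mul_le_mul_of_nonneg_right hℓK ht0.le
    linarith
  have hsn : √(n : ℝ) * √n = n := Real.mul_self_sqrt hn0.le
  have hs1 : 1 ≤ √(n : ℝ) := by
    rw [Real.one_le_sqrt]
    linarith
  have hLs : (L : ℝ) ≤ √n / 100 := by linarith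
  set N : ℕ := n / L with hN
  have hNL : N * L ≤ n := Nat.div_mul_le_self n L
  have hNs : √(n : ℝ) ≤ N := by
    have h1 : n < (N + 1) * L := by
      rw [hN]
      have := Nat.lt_div_mul_add (a := n) (b := L) (by omega)
      rw [add_mul, one_mul]
      exact this
    have h2 : (n : ℝ) < (N + 1) * L := by exact_mod_cast h1
    have h3 : √(n : ℝ) * √n < (N + 1) * (√n / 100) := by
      rw [hsn]
      exact h2.trans_le (mul_le_mul_of_nonneg_left hLs (by positivity))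
    have h4 : √(n : ℝ) < (N + 1) / 100 := by
      have h5 : √(n : ℝ) * √n < √n * ((N + 1) / 100) := by linarith
      exact lt_of_mul_lt_mul_left h5 (by positivity)
    linarith
  have hN0 : (0 : ℝ) < N := by linarith
  have hN0' : 0 < N := by exact_mod_cast hN0
  have h48 : 48 * L ≤ n := by
    have : (48 * L : ℝ) ≤ n := by
      have h1 : √(n : ℝ) ≤ n := by
        calc √(n : ℝ) = √n * 1 := (mul_one _).symm
          _ ≤ √n * √n := mul_le_mul_of_nonneg_left hs1 (Real.sqrt_nonneg _)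
          _ = n := hsn
      linarith
    exact_mod_cast this
  set M : ℝ := 6 * √(ℓ * t) with hM
  set lam : ℝ := √(ℓ / t) with hlam
  have hM0 : 0 ≤ M := by positivity
  have hlam0 : 0 ≤ lam := Real.sqrt_nonneg _
  have hlam1 : lam ≤ 1 := by
    rw [hlam, Real.sqrt_le_iff, one_pow, div_le_one ht0]
    exact ⟨zero_le_one, htℓ'⟩
  have hlam2 : lam ^ 2 * t = ℓ := by
    rw [hlam, Real.sq_sqrt (by positivity)]
    field_simp
  have hlamM : lam * M = 6 * ℓ := by
    rw [hlam, hM, mul_left_comm, ← Real.sqrt_mul (by positivity)]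
    have : ℓ / t * (ℓ * t) = ℓ ^ 2 := by
      field_simp
    rw [this, Real.sqrt_sq hℓ0.le]
  have hMℓ : ℓ * M ≤ 6 * t := by
    have h1 : ℓ * √(ℓ * t) ≤ t := by
      have h2 : ℓ * √(ℓ * t) = √(ℓ ^ 3 * t) := by
        have h3 : ℓ ^ 3 * t = ℓ ^ 2 * (ℓ * t) := by ring
        rw [h3, Real.sqrt_mul (by positivity : (0 : ℝ) ≤ ℓ ^ 2) (ℓ * t), Real.sqrt_sq hℓ0.le]
      rw [h2]
      have h3 : √(ℓ ^ 3 * t) ≤ √(t * t) := Real.sqrt_le_sqrt
        (mul_le_mul_of_nonneg_right htℓ ht0.le)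
      rwa [Real.sqrt_mul_self ht0.le] at h3
    rw [hM]
    linarith
  refine ⟨L, N, θ, M, lam, hn3, hm0, hL1, hN0', hNL, h48, hθ0, by linarith, hM0, ?_, ?_, hlam0,
    hlam1, ?_, ?_⟩
  · rw [mul_one_div, div_mul_eq_mul_div, div_le_one hL0]
    have h1 : 4 * M ≤ K * t / ℓ := by
      rw [le_div_iff₀ hℓ0]
      have := mul_le_mul_of_nonneg_right hK24 ht0.le
      linarith
    linarith
  · have h1 : 2 * θ * M = 2 * c₁ * (ℓ * M) / t := by
      rw [hθ]
      ring
    rw [h1, div_le_one ht0]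
    have h5 : 2 * c₁ * (ℓ * M) ≤ 2 * c₁ * (6 * t) := mul_le_mul_of_nonneg_left hMℓ (by positivity)
    have h6 : c₁ * t ≤ 1 / 16384 * t := mul_le_mul_of_nonneg_right hc1 ht0.le
    linarith
  · rw [hθt]
    ring
  · -- the sum
    have A1 : 2 * (n : ℝ) * Real.exp ((lam ^ 2 + 2 * lam * θ) * t - lam * M) ≤ η / 8 := by
      have h1 : (lam ^ 2 + 2 * lam * θ) * t - lam * M ≤ -(3 * ℓ) := by
        have h2 : (lam ^ 2 + 2 * lam * θ) * t = ℓ + 2 * lam * (c₁ * ℓ) := by
          rw [add_mul, hlam2, mul_assoc, hθt]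
        rw [h2, hlamM]
        have h3 : lam * (c₁ * ℓ) ≤ 1 * (1 * ℓ) :=
          mul_le_mul hlam1 (mul_le_mul_of_nonneg_right (by linarith) hℓ0.le) (by positivity)
            zero_le_one
        linarith
      have h2 : Real.exp (-(3 * ℓ)) = 1 / (n : ℝ) ^ 3 := by
        rw [Real.exp_neg, show (3 : ℝ) * ℓ = ((3 : ℕ) : ℝ) * ℓ by norm_num, Real.exp_nat_mul, hexp,
          one_div]
      have h3 : 2 * (n : ℝ) * Real.exp ((lam ^ 2 + 2 * lam * θ) * t - lam * M) ≤
          2 * n * (1 / (n : ℝ) ^ 3) := by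
        rw [← h2]
        exact mul_le_mul_of_nonneg_left (Real.exp_le_exp.2 h1) (by positivity)
      refine h3.trans ?_
      have h4 : 2 * (n : ℝ) * (1 / (n : ℝ) ^ 3) = 2 / n / n := by
        field_simp
      rw [h4]
      have h5 : 2 / (n : ℝ) ≤ η / 16 := by
        rw [div_le_div_iff₀ hn0 (by norm_num)]
        have h6 : 32 / η ≤ n := by linarith
        rw [div_le_iff₀ hη] at h6
        linarith
      have h6 : 2 / (n : ℝ) / n ≤ 2 / n := by
        apply div_le_self (by positivity)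
        linarith
      linarith
    have A2 : 512 * t / (L * (θ * t)) ≤ η / 4 := by
      have h1 : K * c₁ * t ≤ L * (θ * t) := by
        rw [hθt]
        have h2 : K * c₁ * t = K * t / ℓ * (c₁ * ℓ) := by
          field_simp
        rw [h2]
        exact mul_le_mul_of_nonneg_right hLge (by positivity)
      rw [hKc] at h1
      rw [div_le_div_iff₀ (by rw [hθt]; positivity) (by norm_num)]
      have h3 : η * (2048 / η * t) ≤ η * (L * (θ * t)) := mul_le_mul_of_nonneg_left h1 hη.le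
      have h4 : η * (2048 / η * t) = 2048 * t := by
        field_simp
      linarith
    have A3 : 49152 * t / ((θ * t) ^ 2 * L) ≤ η / 8 := by
      rw [hθt, div_le_div_iff₀ (by positivity) (by norm_num)]
      have h1 : (c₁ * ℓ) ^ 2 * (K * t / ℓ) ≤ (c₁ * ℓ) ^ 2 * L :=
        mul_le_mul_of_nonneg_left hLge (by positivity)
      have h2 : (c₁ * ℓ) ^ 2 * (K * t / ℓ) = (K * c₁) * (c₁ * ℓ) * t := by
        field_simp
      rw [h2, hKc] at h1
      have h3 : 192 ≤ c₁ * ℓ := by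
        rw [div_le_iff₀ hc0] at hℓc
        linarith
      have h4 : η * (2048 / η * (c₁ * ℓ) * t) = 2048 * (c₁ * ℓ) * t := by
        field_simp
      have h5 : η * (2048 / η * (c₁ * ℓ) * t) ≤ η * ((c₁ * ℓ) ^ 2 * L) :=
        mul_le_mul_of_nonneg_left h1 hη.le
      have h6 : 2048 * 192 * t ≤ 2048 * (c₁ * ℓ) * t := by
        refine mul_le_mul_of_nonneg_right ?_ ht0.le
        linarith
      linarith
    have A4 : √((1 + θ ^ 2 * L / n) ^ m / N) ≤ η / 4 := by
      have h1 : (1 + θ ^ 2 * L / n) ^ m ≤ Real.exp (ℓ / 4) := by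
        have h2 : 1 + θ ^ 2 * L / n ≤ Real.exp (θ ^ 2 * L / n) := by
          linarith [Real.add_one_le_exp (θ ^ 2 * L / n)]
        have h3 : (1 + θ ^ 2 * L / n) ^ m ≤ Real.exp (θ ^ 2 * L / n) ^ m :=
          pow_le_pow_left₀ (by positivity) h2 m
        refine h3.trans ?_
        rw [← Real.exp_nat_mul]
        apply Real.exp_le_exp.2
        have h4 : (m : ℝ) * (θ ^ 2 * L / n) = θ ^ 2 * L * t := by
          rw [ht]
          ring
        rw [h4]
        have h5 : θ ^ 2 * L * t ≤ θ ^ 2 * (2 * (K * t / ℓ)) * t :=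
          mul_le_mul_of_nonneg_right (mul_le_mul_of_nonneg_left hLle (by positivity)) ht0.le
        refine h5.trans (le_of_eq ?_)
        have h6 : θ ^ 2 * (2 * (K * t / ℓ)) * t = 2 * K * (θ * t) ^ 2 / ℓ := by ring
        rw [h6, hθt]
        have h7 : 2 * K * (c₁ * ℓ) ^ 2 / ℓ = 2 * (K * c₁) * c₁ * ℓ := by
          field_simp
        rw [h7, hKc, hc₁]
        field_simp
        norm_num
      have h2 : √(n : ℝ) = Real.exp (ℓ / 2) := by
        rw [← hexp, Real.exp_half]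
      have h3 : (1 + θ ^ 2 * L / n) ^ m / N ≤ Real.exp (-(ℓ / 8)) ^ 2 := by
        have h4 : (1 + θ ^ 2 * L / n) ^ m / N ≤ Real.exp (ℓ / 4) / √n :=
          div_le_div₀ (Real.exp_pos _).le h1 (by positivity) hNs
        refine h4.trans (le_of_eq ?_)
        rw [h2, ← Real.exp_sub, ← Real.exp_nat_mul]
        congr 1
        push_cast
        ring
      have h4 : √((1 + θ ^ 2 * L / n) ^ m / N) ≤ Real.exp (-(ℓ / 8)) := by
        refine (Real.sqrt_le_sqrt h3).trans ?_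
        rw [Real.sqrt_sq (Real.exp_pos _).le]
      refine h4.trans ?_
      rw [Real.exp_neg, inv_le_comm₀ (Real.exp_pos _) (by positivity), inv_div]
      have h5 : ℓ / 8 ≤ Real.exp (ℓ / 8) := by linarith [Real.add_one_le_exp (ℓ / 8)]
      have h6 : 4 / η ≤ ℓ / 8 := by
        have h7 : 4 / η = 32 / η / 8 := by ring
        rw [h7]
        linarith
      linarith
    linarith

theorem par : S_PAR := by
  intro η hη
  set η' : ℝ := min η (1 / 2) with hη'
  have h0 : 0 < η' := lt_min hη (by norm_num)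
  have h1 : η' ≤ 1 / 2 := min_le_right _ _
  have h2 : η' ≤ η := min_le_left _ _
  have hev : ∀ᶠ n : ℕ in Filter.atTop, 1 + 200 * (2048 / (η' * (η' / 16384))) +
      192 / (η' / 16384) + 32 / η' ≤ Real.log n :=
    (Real.tendsto_log_atTop.comp tendsto_natCast_atTop_atTop).eventually_ge_atTop _
  obtain ⟨n₀, hn₀⟩ := Filter.eventually_atTop.1 hev
  refine ⟨η' / 16384 / 32, by positivity, n₀, fun n m hn hm1 hm2 => ?_⟩
  obtain ⟨L, N, θ, M, lam, h⟩ := par_aux η' h0 h1 (η' / 16384) _ rfl rfl n m (hn₀ n hn) hm1 hm2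
  obtain ⟨g1, g2, g3, g4, g5, g6, g7, g8, g9, g10, g11, g12, g13, g14, g15⟩ := h
  exact ⟨L, N, θ, M, lam, g1, g2, g3, g4, g5, g6, g7, g8, g9, g10, g11, g12, g13, g14,
    g15.trans h2⟩

end Pool.Agent.Q209.LB
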