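import Pool.Agent.Q295.LB.Stm

set_option autoImplicit false

/-! The potential function (project LB of helper295, MP_d24e49_pr). -/

namespace Pool.Agent.Q209.LB

open Pool.Agent.Q295.LB

theorem Ex_le_one {S α : Type} [Fintype α] (w : α → ℝ) (hw0 : ∀ a, 0 ≤ w a) (hw : ∑ a, w a = 1)
    (F : S → α → S) (f : S → ℝ) (hf : ∀ x, f x ≤ 1) (m : ℕ) (x : S) : Ex w F m f x ≤ 1 := by
  induction m generalizing x with
  | zero => exact hf x
  | succ m ih =>
    rw [Ex, ← hw]
    refine Finset.sum_le_sum fun a _ => ?_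
    calc w a * Ex w F m f (F x a) ≤ w a * 1 := mul_le_mul_of_nonneg_left (ih _) (hw0 a)
      _ = w a := mul_one _

theorem Zf_nonneg {n : ℕ} [NeZero n] (lam s : ℝ) (x : ZMod n → ℕ) : 0 ≤ Zf lam s x :=
  Finset.sum_nonneg fun _ _ => (Real.exp_pos _).le

theorem le_Zf {n : ℕ} [NeZero n] (lam s : ℝ) (x : ZMod n → ℕ) (v : ZMod n) :
    Real.exp (lam * ((x v : ℝ) - s)) ≤ Zf lam s x :=
  Finset.single_le_sum (f := fun v => Real.exp (lam * ((x v : ℝ) - s)))
    (fun _ _ => (Real.exp_pos _).le) (Finset.mem_univ v)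

theorem En_nonneg {n : ℕ} [NeZero n] (ψ : ZMod n → ℝ) (hψ : ∀ v, 0 ≤ ψ v) (s : ℝ)
    (x : ZMod n → ℕ) : 0 ≤ En ψ s x :=
  Finset.sum_nonneg fun v _ => mul_nonneg (hψ v) (sq_nonneg _)

theorem avg {α : Type} [Fintype α] (w : α → ℝ) (hw : ∑ a, w a = 1) (Z1 Z2 E C T : α → ℝ)
    (g e B c8 b ks a2 : ℝ) :
    ∑ a, w a * (g * (Z1 a + Z2 a) * e + (E a + (B + C a) + c8) / b + (T a + ks) / a2) =
      g * ((∑ a, w a * Z1 a) + ∑ a, w a * Z2 a) * e +
        ((∑ a, w a * (E a + C a)) + (B + c8)) / b + ((∑ a, w a * T a) + ks) / a2 := by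
  have h : ∀ a, w a * (g * (Z1 a + Z2 a) * e + (E a + (B + C a) + c8) / b + (T a + ks) / a2) =
      g * e * (w a * Z1 a) + g * e * (w a * Z2 a) + 1 / b * (w a * (E a + C a)) +
        1 / a2 * (w a * T a) + w a * ((B + c8) / b + ks / a2) := fun a => by ring
  simp only [h]
  rw [Finset.sum_add_distrib, Finset.sum_add_distrib, Finset.sum_add_distrib,
    Finset.sum_add_distrib, ← Finset.mul_sum, ← Finset.mul_sum, ← Finset.mul_sum,
    ← Finset.mul_sum, ← Finset.sum_mul, hw]
  ring

theorem pot (hSLI : S_SLI) (hLIP : S_LIP) (hINV : S_INV) (hZST : S_ZST) (hEST : S_EST) :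
    S_POT := by
  intro n _ p θ hθ hθ1 hp1 hp0 hpd ψ ε M lam b a₁ H hε hM hψ hr h4 h2 hl hl1 hb ha m hH
  set Ψ : ℝ := ∑ v, ψ v with hΨ
  set μ : ℝ := ∑ u, p u * ψ u with hμ
  set σ : ℝ := ∑ u, p u * ψ u ^ 2 with hσ
  set G : ℝ := Real.exp ((lam ^ 2 + 2 * lam * θ) / n) with hG
  set e : ℝ := Real.exp (-(lam * M)) with he
  set f : (ZMod n → ℕ) → ℝ :=
    ({x | ((maxLoad x : ℕ) : ℝ) < H} : Set (ZMod n → ℕ)).indicator fun _ => (1 : ℝ) with hf
  have hn : (0 : ℝ) < n := by
    have := NeZero.pos n
    exact_mod_cast this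
  have hΨ0 : 0 ≤ Ψ := Finset.sum_nonneg fun v _ => hψ v
  have hσ0 : 0 ≤ σ := Finset.sum_nonneg fun v _ => mul_nonneg (hp0 v) (sq_nonneg _)
  have hG1 : 1 ≤ G := by
    rw [hG]
    exact Real.one_le_exp (by positivity)
  have he0 : 0 < e := Real.exp_pos _
  have hf1 : ∀ x, f x ≤ 1 := fun x => by
    rw [hf]; exact Set.indicator_le' (fun _ _ => le_rfl) (fun _ _ => zero_le_one) x
  have hwt0 : ∀ a : ZMod n × Bool, 0 ≤ wt p a := fun a => by
    have := hp0 a.1
    simp only [wt]
    linarith
  have hwsum : ∀ g : ZMod n → ℝ, ∑ a : ZMod n × Bool, wt p a * g a.1 = ∑ u, p u * g u := by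
    intro g
    rw [Fintype.sum_prod_type]
    refine Finset.sum_congr rfl fun u _ => ?_
    simp only [wt, Fintype.sum_bool]
    ring
  have hwt1 : ∑ a : ZMod n × Bool, wt p a = 1 := by
    have := hwsum fun _ => 1
    simp only [mul_one] at this
    rw [this, hp1]
  have key : ∀ (k i : ℕ), i + k = m → ∀ (x : ZMod n → ℕ), Lip x → ∀ A B : ℝ, 0 ≤ B →
      A - ε * B ≤ ∑ v, ψ v * (x v : ℝ) →
      Ex (wt p) stp k f x ≤ G ^ k * (Zf lam (i / n) x + Zf (-lam) (i / n) x) * e +
        (En ψ (i / n) x + B + 8 * Ψ * k / n) / b + ((A - i * μ) ^ 2 + k * σ) / a₁ ^ 2 := by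
    intro k
    induction k with
    | zero =>
      intro i hi x _ A B hB hAB
      rw [add_zero] at hi
      subst hi
      have t1 : 0 ≤ G ^ 0 * (Zf lam (i / n) x + Zf (-lam) (i / n) x) * e :=
        mul_nonneg (mul_nonneg (by positivity)
          (add_nonneg (Zf_nonneg _ _ _) (Zf_nonneg _ _ _))) he0.le
      have t2 := En_nonneg ψ hψ (i / n) x
      rw [Ex]
      by_cases hx : x ∈ ({x | ((maxLoad x : ℕ) : ℝ) < H} : Set (ZMod n → ℕ))
      · rw [hf, Set.indicator_of_mem hx]
        have hxH : ∑ v, ψ v * (x v : ℝ) ≤ H * Ψ := by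
          rw [hΨ, Finset.mul_sum]
          refine Finset.sum_le_sum fun v _ => ?_
          have h5 : (x v : ℝ) ≤ (maxLoad x : ℕ) := by
            exact_mod_cast Finset.le_sup (f := x) (Finset.mem_univ v)
          have h6 : (x v : ℝ) ≤ H := h5.trans (le_of_lt hx)
          rw [mul_comm H]
          exact mul_le_mul_of_nonneg_left h6 (hψ v)
        by_cases hBb : b ≤ B
        · have : 1 ≤ (En ψ (i / n) x + B + 8 * Ψ * (0 : ℕ) / n) / b := by
            rw [le_div_iff₀ hb]
            push_cast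
            simp only [mul_zero, zero_div, add_zero]
            linarith
          have t3 : 0 ≤ ((A - i * μ) ^ 2 + (0 : ℕ) * σ) / a₁ ^ 2 := by
            push_cast
            rw [zero_mul, add_zero]
            positivity
          linarith
        · by_cases hAa : a₁ ≤ |A - i * μ|
          · have : 1 ≤ ((A - i * μ) ^ 2 + (0 : ℕ) * σ) / a₁ ^ 2 := by
              push_cast
              rw [zero_mul, add_zero, le_div_iff₀ (by positivity), one_mul, ← sq_abs (A - i * μ)]
              exact pow_le_pow_left₀ ha.le hAa 2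
            have t3 : 0 ≤ (En ψ (i / n) x + B + 8 * Ψ * (0 : ℕ) / n) / b := by
              push_cast
              simp only [mul_zero, zero_div, add_zero]
              positivity
            linarith
          · exfalso
            push Not at hBb hAa
            have h5 := (abs_lt.1 hAa).1
            have h6 : ε * B ≤ ε * b := mul_le_mul_of_nonneg_left hBb.le hε
            linarith
      · rw [hf, Set.indicator_of_notMem hx]
        have t3 : 0 ≤ ((A - i * μ) ^ 2 + (0 : ℕ) * σ) / a₁ ^ 2 := by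
          push_cast
          rw [zero_mul, add_zero]
          positivity
        have t4 : 0 ≤ (En ψ (i / n) x + B + 8 * Ψ * (0 : ℕ) / n) / b := by
          push_cast
          simp only [mul_zero, zero_div, add_zero]
          positivity
        linarith
    | succ k ih =>
      intro i hi x hx A B hB hAB
      have t2 := En_nonneg ψ hψ (i / n) x
      have hZ1 := Zf_nonneg lam (i / n) x
      have hZ2 := Zf_nonneg (-lam) (i / n) x
      by_cases hgood : ∀ v, |(x v : ℝ) - i / n| ≤ M
      · -- good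
        have hD0 : ∀ a : ZMod n × Bool, 0 ≤ ψ a.1 * ((x a.1 : ℝ) - x (sl x a.1 a.2)) := by
          intro a
          refine mul_nonneg (hψ _) ?_
          rw [sub_nonneg]
          exact_mod_cast (hSLI n x hx a.1 a.2).1
        have hs : ((i + 1 : ℕ) : ℝ) / n = i / n + 1 / n := by
          push_cast
          ring
        have hone : ∀ a : ZMod n × Bool, Ex (wt p) stp k f (stp x a) ≤
            G ^ k * (Zf lam (i / n + 1 / n) (stp x a) + Zf (-lam) (i / n + 1 / n) (stp x a)) * e +
            (En ψ (i / n + 1 / n) (stp x a) + (B + ψ a.1 * ((x a.1 : ℝ) - x (sl x a.1 a.2))) +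
              8 * Ψ * k / n) / b +
            ((A + ψ a.1 - (i + 1 : ℕ) * μ) ^ 2 + k * σ) / a₁ ^ 2 := by
          intro a
          have := ih (i + 1) (by omega) (stp x a) (hLIP n x hx a) (A + ψ a.1)
            (B + ψ a.1 * ((x a.1 : ℝ) - x (sl x a.1 a.2))) (add_nonneg hB (hD0 a)) (by
              have h5 := hINV n x hx ψ ε hε hψ hr a
              linarith)
          rw [hs] at this
          exact this
        have z1 := hZST n x hx p θ hθ hp1 hp0 hpd lam (by rw [abs_of_nonneg hl]; exact hl1)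
          (i / n)
        have z2 := hZST n x hx p θ hθ hp1 hp0 hpd (-lam)
          (by rw [abs_neg, abs_of_nonneg hl]; exact hl1) (i / n)
        rw [abs_neg, neg_sq] at z2
        rw [abs_of_nonneg hl] at z1 z2
        rw [← hG] at z1 z2
        have e1 := hEST n x hx p θ hθ hθ1 hp1 hp0 hpd ψ ε M (i / n) hε hM hψ hr h4 h2 hgood
        rw [← hΨ] at e1
        -- third term
        have q1 : ∑ a : ZMod n × Bool, wt p a * (A + ψ a.1 - (i + 1 : ℕ) * μ) ^ 2 ≤
            (A - i * μ) ^ 2 + σ := by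
          have h5 := hwsum fun u => (A + ψ u - (i + 1 : ℕ) * μ) ^ 2
          rw [h5]
          have h6 : ∀ u, p u * (A + ψ u - (i + 1 : ℕ) * μ) ^ 2 =
              p u * ((A - i * μ) ^ 2 - 2 * (A - i * μ) * μ + μ ^ 2) +
                2 * (A - i * μ - μ) * (p u * ψ u) + p u * ψ u ^ 2 := by
            intro u
            push_cast
            ring
          rw [Finset.sum_congr rfl fun u _ => h6 u, Finset.sum_add_distrib,
            Finset.sum_add_distrib, ← Finset.sum_mul, ← Finset.mul_sum, hp1, ← hμ, ← hσ]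
          nlinarith [sq_nonneg μ]
        rw [Ex]
        have hsum : ∑ a, wt p a * Ex (wt p) stp k f (stp x a) ≤
            G ^ k * ((∑ a, wt p a * Zf lam (i / n + 1 / n) (stp x a)) +
              ∑ a, wt p a * Zf (-lam) (i / n + 1 / n) (stp x a)) * e +
            ((∑ a, wt p a * (En ψ (i / n + 1 / n) (stp x a) +
              ψ a.1 * ((x a.1 : ℝ) - x (sl x a.1 a.2)))) + (B + 8 * Ψ * k / n)) / b +
            ((∑ a : ZMod n × Bool, wt p a * (A + ψ a.1 - (i + 1 : ℕ) * μ) ^ 2) + k * σ) /
              a₁ ^ 2 := by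
          refine (Finset.sum_le_sum fun a _ =>
            mul_le_mul_of_nonneg_left (hone a) (hwt0 a)).trans (le_of_eq ?_)
          exact avg (wt p) hwt1 (fun a => Zf lam (i / n + 1 / n) (stp x a))
            (fun a => Zf (-lam) (i / n + 1 / n) (stp x a))
            (fun a => En ψ (i / n + 1 / n) (stp x a))
            (fun a => ψ a.1 * ((x a.1 : ℝ) - x (sl x a.1 a.2)))
            (fun a => (A + ψ a.1 - (i + 1 : ℕ) * μ) ^ 2) (G ^ k) e B (8 * Ψ * k / n) b (k * σ)
            (a₁ ^ 2)
        refine hsum.trans ?_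
        have g1 : G ^ k * ((∑ a, wt p a * Zf lam (i / n + 1 / n) (stp x a)) +
              ∑ a, wt p a * Zf (-lam) (i / n + 1 / n) (stp x a)) * e ≤
            G ^ (k + 1) * (Zf lam (i / n) x + Zf (-lam) (i / n) x) * e := by
          refine mul_le_mul_of_nonneg_right ?_ he0.le
          rw [pow_succ, mul_assoc]
          refine mul_le_mul_of_nonneg_left ?_ (by positivity)
          rw [mul_add]
          exact add_le_add z1 z2
        have g2 : ((∑ a, wt p a * (En ψ (i / n + 1 / n) (stp x a) +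
              ψ a.1 * ((x a.1 : ℝ) - x (sl x a.1 a.2)))) + (B + 8 * Ψ * k / n)) / b ≤
            (En ψ (i / n) x + B + 8 * Ψ * (k + 1 : ℕ) / n) / b := by
          refine div_le_div_of_nonneg_right ?_ hb.le
          have : 8 * Ψ * ((k + 1 : ℕ) : ℝ) / n = 8 / n * Ψ + 8 * Ψ * k / n := by
            push_cast
            ring
          rw [this]
          linarith
        have g3 : ((∑ a : ZMod n × Bool, wt p a * (A + ψ a.1 - (i + 1 : ℕ) * μ) ^ 2) + k * σ) /
              a₁ ^ 2 ≤ ((A - i * μ) ^ 2 + (k + 1 : ℕ) * σ) / a₁ ^ 2 := by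
          refine div_le_div_of_nonneg_right ?_ (by positivity)
          push_cast at q1 ⊢
          linarith
        linarith
      · -- bad
        push Not at hgood
        obtain ⟨v, hv⟩ := hgood
        have hbig : Real.exp (lam * M) ≤ Zf lam (i / n) x + Zf (-lam) (i / n) x := by
          rcases le_total 0 ((x v : ℝ) - i / n) with h5 | h5
          · rw [abs_of_nonneg h5] at hv
            have h6 := le_Zf lam (i / n) x v
            have h7 : Real.exp (lam * M) ≤ Real.exp (lam * ((x v : ℝ) - i / n)) :=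
              Real.exp_le_exp.2 (mul_le_mul_of_nonneg_left hv.le hl)
            linarith
          · rw [abs_of_nonpos h5] at hv
            have h6 := le_Zf (-lam) (i / n) x v
            have h7 : Real.exp (lam * M) ≤ Real.exp (-lam * ((x v : ℝ) - i / n)) := by
              apply Real.exp_le_exp.2
              have := mul_le_mul_of_nonneg_left hv.le hl
              linarith
            linarith
        have h8 : 1 ≤ G ^ (k + 1) * (Zf lam (i / n) x + Zf (-lam) (i / n) x) * e := by
          have h9 : (1 : ℝ) = 1 * Real.exp (lam * M) * e := by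
            rw [he, one_mul, ← Real.exp_add]
            simp
          rw [h9]
          refine mul_le_mul_of_nonneg_right ?_ he0.le
          exact mul_le_mul (one_le_pow₀ hG1) hbig (Real.exp_pos _).le (by positivity)
        have h9 := Ex_le_one (wt p) hwt0 hwt1 stp f hf1 (k + 1) x
        have t3 : 0 ≤ ((A - i * μ) ^ 2 + (k + 1 : ℕ) * σ) / a₁ ^ 2 := by positivity
        have t4 : 0 ≤ (En ψ (i / n) x + B + 8 * Ψ * (k + 1 : ℕ) / n) / b := by positivity
        linarith
  have hfin := key m 0 (by omega) (fun _ => 0) (fun v => ⟨by simp, by simp⟩) 0 0 le_rfl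
    (by simp)
  have z0 : ∀ l : ℝ, Zf l ((0 : ℕ) / n) (fun _ : ZMod n => 0) = n := by
    intro l
    unfold Zf
    simp
  have e0 : En ψ ((0 : ℕ) / n) (fun _ : ZMod n => 0) = 0 := by
    unfold En
    simp
  rw [z0, z0, e0] at hfin
  refine hfin.trans (le_of_eq ?_)
  push_cast
  ring

end Pool.Agent.Q209.LB
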